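import Pool.Agent.H631.ED.Card
import Pool.Agent.H631.ED.Zfc
import Pool.Agent.H631.ED.UnitM

/-!
# Strict decrease of the cardinals `𝔡(≠*, h)` under faster growth

For every order function `F` there is an order function `G`, which grows faster than `F`, such that
`𝔡(≠*, G) < 𝔡(≠*, F)` can be forced by a ccc forcing. The function `G` is given by the recursion
`ρ n = ∏_{i < n} G i`, `ℓ n = (ρ n) ^ n`, `s n = ∑_{i < n} ℓ i`, `b n = F (s (n + 1)) ^ ℓ n`,
`G n = G (n - 1) + n * (b n) ^ (ℓ n) + 2`.

The notion of forcing is a finite support iteration along a well-ordered set `T`, whose cardinality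
is a successor cardinal, over a much larger set `C` of Cohen functions. At `t` in `T` a function in
`∏ G` is added which is eventually different from all functions whose names have their supports
below `t`: a condition gives a finite sequence bounded by `G`, and less than `G(length)` promises,
where a promise is a name of a function. So `𝔡(≠*, G) ≤ |T|` is forced. For `𝔡(≠*, F) > |T|` it is shown
that every function in `∏ F` in the extension is infinitely often equal to the function decoded
from the Cohen function at `c`, for all but countably many `c` in `C`. The Cohen function at `c`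
chooses at `n` a function on the block `[s n, s (n + 1))`. The claim is proved by induction on `t` for
names of sequences of families of at most `(ρ n) ^ k` functions on the block `n`, where the function
chosen by the Cohen function shall agree somewhere with each member of the family. In the
successor step a family of `(ρ n) ^ k` functions at `n` is replaced by the union of `ρ n` families,
one for each possible sequence of length `n` of the condition at `t`: such a family exists because
`n` promises for each of the `b n ^ (ρ n) ^ k` possible values are together less than `G n` promises,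
so that some value cannot be excluded by any condition with this sequence and at most `n` promises.
Since the block has `(ρ n) ^ n` elements, a family of `(ρ n) ^ k` functions can be hit by one function.
-/

set_option autoImplicit false

namespace Pool.Agent.Results.MP_081461_lc.StrictDecrease

open Cardinal Filter Pool.Agent.H631.ED

/-- For every order function `F` there is an order function `G` which grows faster than `F`, such
that: (A) for every set `R` there are a set `T`, with an injection from `R` to `T`, and a nonempty
ccc notion of forcing `P`, all of whose conditions force the sentence `PhiFor F G T`; (B) the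
sentence `PhiHolds` of the forcing language means `PhiFor` (over the trivial notion of forcing);
(C) whenever `PhiFor F G T` holds, `𝔡(≠*, G) ≤ |T| < 𝔡(≠*, F)`, and `𝔡(≠*, G') < 𝔡(≠*, F)` for all `G'` with
values at least `2` which are eventually greater than or equal to `G`. -/
theorem result : ∀ F : ℕ → ℕ, IsOrder F → ∃ G : ℕ → ℕ, IsOrder G ∧ Faster F G ∧
    (∀ R : Type, ∃ (T P : Type) (_ : Preorder P), Nonempty (R ↪ T) ∧ Nonempty P ∧
      (∀ A : Set P, (∀ p ∈ A, ∀ q ∈ A, p ≠ q → ¬ ∃ r, r ≤ p ∧ r ≤ q) → A.Countable) ∧
      ∀ p : P, p ∈ PhiHolds P F G T) ∧
    (∀ (T : Type) (p : Unit), p ∈ PhiHolds Unit F G T ↔ PhiFor F G T) ∧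
    (∀ T : Type, PhiFor F G T → dNe G ≤ #T ∧ #T < dNe F ∧ dNe G < dNe F ∧
      ∀ G' : ℕ → ℕ, (∀ n, 2 ≤ G' n) → (∀ᶠ n in atTop, G n ≤ G' n) → dNe G' < dNe F) := by
  intro F hF
  refine ⟨GG F, GG_order hF, GG_faster hF, exists_forcing' hF.2.2.2 hF.2.1,
    fun T p => unit_meaning F (GG F) T p, fun T h => ?_⟩
  obtain ⟨h1, h2, h3⟩ := dNe_lt hF.2.2.2 h
  exact ⟨h1, h2, h3, fun G' hG' hle => (dNe_anti two_le_GG hG' hle).trans_lt h3⟩

end Pool.Agent.Results.MP_081461_lc.StrictDecrease
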